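import Mathlib
import Pool.Agent.H533R3.SL.UCountMain

/-!
# A uniform bound for the number of sparse rational points on hyperbolic varieties

Let `X` be a closed subvariety of projective `n`-space over a number field `K`, cut out by `N` forms
of degree at most `d` with arbitrary coefficients in `𝓞 K`.  If `X` is Brody (equivalently
Kobayashi) hyperbolic for some embedding of `K` in `ℂ`, or if only `X` contains no rational curve
over `K`, then for every nonzero nonunit `b` of `𝓞 K`, every `r` and every finite set `V` of digits,
at most `#V ^ ((n + 1) r) ((((d + 1) ^ r)!) ^ 2) ^ N` points of `X(K)` have homogeneous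
coordinates that are combinations of the same `r` powers of `b` with coefficients in `V`.
The bound depends neither on the coefficients of the forms, nor on `b`, nor on `K`.
-/

namespace Pool.Agent.Results.MP_627a61_nt.UniformSparsePoints

open NumberField MvPolynomial Pool.Agent.H458.Sp Pool.Agent.H533R3.SL

/-- the bound, which does not depend on the coefficients of the forms, on the base `b` and on the
number field -/
def bound (n N d r : ℕ) (c : ℕ) : ℕ :=
  c ^ ((n + 1) * r) * ((Nat.factorial ((d + 1) ^ r)) ^ 2) ^ N

theorem result (K : Type) [Field K] [NumberField K] (n N : ℕ)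
    (P : Fin N → MvPolynomial (Fin (n + 1)) (𝓞 K)) (d : ℕ)
    (hP : ∀ i, ∃ e, e ≤ d ∧ (P i).IsHomogeneous e)
    (hyp : NoRat P ∨ ∃ σ : K →+* ℂ,
      BrodyHyperbolic ((MvPolynomial.map (σ.comp (algebraMap (𝓞 K) K))) '' Set.range P))
    (b : 𝓞 K) (hb0 : b ≠ 0) (hbu : ¬ IsUnit b) (r : ℕ) (V : Finset (𝓞 K)) :
    (sparsePts P b r V).encard ≤ (bound n N d r V.card : ℕ∞) := by
  have h : NoRat P := by
    rcases hyp with h | ⟨σ, h⟩
    · exact h
    · exact noRat_of_brody P (fun i => let ⟨e, _, he⟩ := hP i; ⟨e, he⟩) σ h
  exact card_sparsePts P d hP h b hb0 hbu r V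

end Pool.Agent.Results.MP_627a61_nt.UniformSparsePoints
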